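import Pool.Agent.helper17.MLG.Spec

/-!
# MP_84f457_gt, project mlg, row SUP: minimisers are regions
-/

set_option autoImplicit false
set_option linter.unusedSectionVars false

namespace Pool.Agent.MLG

open MeasureTheory Set Filter Topology Module
open scoped ENNReal ContDiff

section sup

variable {V : Type} [NormedAddCommGroup V] [InnerProductSpace ℝ V] [FiniteDimensional ℝ V] [MeasurableSpace V]
  [BorelSpace V] [Group V]

/-- the measure theoretic support of a set -/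
def SUP_S (E : Set V) : Set V := {x | ∀ U ∈ 𝓝 x, 0 < vol V (E ∩ U)}

theorem SUP_closed (E : Set V) : IsClosed (SUP_S E) := by
  rw [← isOpen_compl_iff, isOpen_iff_mem_nhds]
  intro x hx
  simp only [SUP_S, mem_compl_iff, mem_ofPred_eq, not_forall, not_lt, nonpos_iff_eq_zero] at hx
  obtain ⟨U, hU, h0⟩ := hx
  filter_upwards [eventually_mem_nhds_iff.2 hU] with y hy hyS
  exact absurd h0 (hyS U hy).ne'

theorem SUP_null (E : Set V) : vol V (E \ SUP_S E) = 0 := by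
  refine measure_null_of_locally_null _ fun x hx => ?_
  have hx2 := hx.2
  simp only [SUP_S, mem_ofPred_eq, not_forall, not_lt, nonpos_iff_eq_zero] at hx2
  obtain ⟨U, hU, h0⟩ := hx2
  refine ⟨(E \ SUP_S E) ∩ U, inter_mem_nhdsWithin _ hU, ?_⟩
  exact measure_mono_null (inter_subset_inter_left _ diff_subset) h0

theorem SUP_bl (x : V) (r : ℝ) : bl x r = {y | x⁻¹ * y ∈ Metric.ball (1 : V) r} := by
  ext y
  constructor
  · rintro ⟨g, hg, rfl⟩
    simpa using hg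
  · intro hy
    exact ⟨x⁻¹ * y, hy, by simp⟩

theorem SUP_open (hV : IsLie V) (x : V) (r : ℝ) : IsOpen (bl x r) := by
  rw [SUP_bl]
  exact Metric.isOpen_ball.preimage (smooth_left hV x⁻¹).continuous

theorem SUP_nhds (hV : IsLie V) (x : V) (r : ℝ) (hr : 0 < r) : bl x r ∈ 𝓝 x := by
  refine (SUP_open hV x r).mem_nhds ?_
  rw [SUP_bl]
  simpa using hr

/-- the estimate by means of AVE -/
theorem SUP_zero (hV : IsLie V) (hAVE : AVE_stmt) (hVBL : VBL_stmt) (A T : Set V) (hA : MeasurableSet A) (hT : MeasurableSet T)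
    (hper : per A ≠ ⊤) (ε r₁ : ℝ) (hε : 0 < ε) (hr₁ : 0 < r₁)
    (h : ∀ x ∈ T, ∀ r : ℝ, 0 < r → r ≤ r₁ → ENNReal.ofReal (ε * r ^ finrank ℝ V) ≤ vol V (bl x r \ A)) :
    vol V (A ∩ T) = 0 := by
  obtain ⟨C, r₀, hC, hr₀, hav⟩ := hAVE V hV
  obtain ⟨κ₁, κ₂, r₂, hκ₁, hκ₂, hr₂, hvb⟩ := hVBL V hV
  set n := finrank ℝ V with hn
  set R := min r₁ (min r₀ r₂) with hR
  have hR0 : 0 < R := lt_min hr₁ (lt_min hr₀ hr₂)
  have key : ∀ r : ℝ, 0 < r → r ≤ R → ENNReal.ofReal ε * vol V (A ∩ T) ≤ ENNReal.ofReal r * (ENNReal.ofReal (C * κ₂) * per A) := by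
    intro r hr hrR
    have h1 : r ≤ r₁ := hrR.trans (min_le_left _ _)
    have h2 : r ≤ r₀ := hrR.trans ((min_le_right _ _).trans (min_le_left _ _))
    have h3 : r ≤ r₂ := hrR.trans ((min_le_right _ _).trans (min_le_right _ _))
    have hrn : (0 : ℝ) < r ^ n := pow_pos hr n
    have e1 : ENNReal.ofReal (ε * r ^ n) * vol V (A ∩ T) ≤ ∫⁻ x in A, vol V (bl x r \ A) ∂(vol V) := by
      calc ENNReal.ofReal (ε * r ^ n) * vol V (A ∩ T) = ∫⁻ _ in A ∩ T, ENNReal.ofReal (ε * r ^ n) ∂(vol V) := by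
            rw [setLIntegral_const]
        _ ≤ ∫⁻ x in A ∩ T, vol V (bl x r \ A) ∂(vol V) :=
            setLIntegral_mono' (hA.inter hT) fun x hx => h x hx.2 r hr h1
        _ ≤ ∫⁻ x in A, vol V (bl x r \ A) ∂(vol V) := lintegral_mono_set inter_subset_left
    have hball : Metric.ball (1 : V) r = bl 1 r := by
      rw [SUP_bl]; ext y; simp
    have e2 : vol V (Metric.ball (1 : V) r) ≤ ENNReal.ofReal (κ₂ * r ^ n) := by
      rw [hball]; exact (hvb 1 r hr h3).2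
    have e3 : ENNReal.ofReal (ε * r ^ n) * vol V (A ∩ T) ≤
        ENNReal.ofReal (C * r) * ENNReal.ofReal (κ₂ * r ^ n) * per A := by
      refine e1.trans ((hav A hA r hr h2).trans ?_)
      gcongr
    have e4 : ENNReal.ofReal (r ^ n) * (ENNReal.ofReal ε * vol V (A ∩ T)) ≤
        ENNReal.ofReal (r ^ n) * (ENNReal.ofReal r * (ENNReal.ofReal (C * κ₂) * per A)) := by
      calc ENNReal.ofReal (r ^ n) * (ENNReal.ofReal ε * vol V (A ∩ T)) = ENNReal.ofReal (ε * r ^ n) * vol V (A ∩ T) := by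
            rw [ENNReal.ofReal_mul hε.le]; ring
        _ ≤ ENNReal.ofReal (C * r) * ENNReal.ofReal (κ₂ * r ^ n) * per A := e3
        _ = ENNReal.ofReal (r ^ n) * (ENNReal.ofReal r * (ENNReal.ofReal (C * κ₂) * per A)) := by
            rw [ENNReal.ofReal_mul hC.le, ENNReal.ofReal_mul hκ₂.le, ENNReal.ofReal_mul hC.le]; ring
    exact (ENNReal.mul_le_mul_iff_right (by simpa using hrn) ENNReal.ofReal_ne_top).1 e4
  have hlim : Tendsto (fun r : ℝ => ENNReal.ofReal r * (ENNReal.ofReal (C * κ₂) * per A)) (𝓝[>] 0) (𝓝 0) := by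
    have h1 : Tendsto (fun r : ℝ => ENNReal.ofReal r) (𝓝[>] 0) (𝓝 0) := by
      have := (ENNReal.continuous_ofReal.tendsto 0).mono_left (nhdsWithin_le_nhds (s := Ioi (0 : ℝ)))
      simpa using this
    have h2 := ENNReal.Tendsto.mul_const (b := ENNReal.ofReal (C * κ₂) * per A) h1
      (Or.inr (ENNReal.mul_ne_top ENNReal.ofReal_ne_top hper))
    simpa using h2
  have h0 : ENNReal.ofReal ε * vol V (A ∩ T) ≤ 0 := by
    refine ge_of_tendsto hlim ?_
    filter_upwards [Ioc_mem_nhdsGT hR0] with r hr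
    exact key r hr.1 hr.2
  have h1 := nonpos_iff_eq_zero.1 h0
  rcases mul_eq_zero.1 h1 with h2 | h2
  · exact absurd (ENNReal.ofReal_eq_zero.1 h2) (not_le.2 hε)
  · exact h2

end sup

theorem SUP (hCON : CON_stmt) (hCLE : CLE_stmt) (hCLC : CLC_stmt) (hAVE : AVE_stmt) (hPER : PER_stmt) (hVBL : VBL_stmt) (hMES : MES_stmt) : SUP_stmt := by
  intro V _ _ _ _ _ _ hV hn E v hv hE hvE hpE
  have := top hV
  obtain ⟨hHaar, -, -⟩ := hMES V hV
  obtain ⟨-, hae, hcompl, -, -⟩ := hPER V hV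
  obtain ⟨-, -, hprof⟩ := hCON V hV hn
  have hper : per E ≠ ⊤ := by
    rw [hpE, hprof v hv]; exact ENNReal.ofReal_ne_top
  have hperc : per Eᶜ ≠ ⊤ := by rw [hcompl E hE]; exact hper
  obtain ⟨ε, r₁, hε, hr₁, hcl⟩ := hCLE V hV hn E v hv hE hvE hpE
  obtain ⟨ε', r₁', hε', hr₁', hcl'⟩ := hCLC V hV hn E v hv hE hvE hpE
  have hS1 : ∀ x ∈ SUP_S E, ∀ r : ℝ, 0 < r → r ≤ r₁ → ENNReal.ofReal (ε * r ^ finrank ℝ V) < vol V (E ∩ bl x r) := by
    intro x hx r hr hrr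
    by_contra hcon
    exact absurd (hcl x r hr hrr (not_lt.1 hcon)) (hx _ (SUP_nhds hV x (r / 2) (half_pos hr))).ne'
  have hS2 : ∀ x ∈ SUP_S Eᶜ, ∀ r : ℝ, 0 < r → r ≤ r₁' → ENNReal.ofReal (ε' * r ^ finrank ℝ V) < vol V (bl x r \ E) := by
    intro x hx r hr hrr
    by_contra hcon
    have h1 := hx _ (SUP_nhds hV x (r / 2) (half_pos hr))
    have h2 : Eᶜ ∩ bl x (r / 2) = bl x (r / 2) \ E := by rw [diff_eq, inter_comm]
    rw [h2] at h1
    exact absurd (hcl' x r hr hrr (not_lt.1 hcon)) h1.ne'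
  have hmS := (SUP_closed E).measurableSet
  have hmS' := (SUP_closed Eᶜ).measurableSet
  have hz1 : vol V (E ∩ SUP_S Eᶜ) = 0 :=
    SUP_zero hV hAVE hVBL E (SUP_S Eᶜ) hE hmS' hper ε' r₁' hε' hr₁' fun x hx r hr hrr => (hS2 x hx r hr hrr).le
  have hz2 : vol V (Eᶜ ∩ SUP_S E) = 0 := by
    refine SUP_zero hV hAVE hVBL Eᶜ (SUP_S E) hE.compl hmS hperc ε r₁ hε hr₁ fun x hx r hr hrr => ?_
    have h1 : bl x r \ Eᶜ = E ∩ bl x r := by rw [diff_eq, compl_compl, inter_comm]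
    rw [h1]
    exact (hS1 x hx r hr hrr).le
  have hz : vol V (SUP_S E ∩ SUP_S Eᶜ) = 0 := by
    refine measure_mono_null (t := (E ∩ SUP_S Eᶜ) ∪ (Eᶜ ∩ SUP_S E)) ?_ (measure_union_null hz1 hz2)
    rintro x ⟨h1, h2⟩
    by_cases hx : x ∈ E
    · exact Or.inl ⟨hx, h2⟩
    · exact Or.inr ⟨hx, h1⟩
  have hOS : (SUP_S Eᶜ)ᶜ ⊆ SUP_S E := by
    intro x hx W hW
    simp only [SUP_S, mem_compl_iff, mem_ofPred_eq, not_forall, not_lt, nonpos_iff_eq_zero] at hx
    obtain ⟨U, hU, h0⟩ := hx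
    have h1 : 0 < vol V (U ∩ W) := Measure.measure_pos_of_mem_nhds _ (inter_mem hU hW)
    have h2 : vol V (U ∩ W) ≤ vol V (E ∩ W) + vol V (Eᶜ ∩ U) := by
      refine (measure_mono ?_).trans (measure_union_le _ _)
      rintro y ⟨hy1, hy2⟩
      by_cases hy : y ∈ E
      · exact Or.inl ⟨hy, hy2⟩
      · exact Or.inr ⟨hy, hy1⟩
    rw [h0, add_zero] at h2
    exact h1.trans_le h2
  refine ⟨SUP_S E, (SUP_S Eᶜ)ᶜ, ?_, (SUP_closed Eᶜ).isOpen_compl, hOS, ?_, ?_, ?_⟩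
  · -- compactness
    have hfin : vol V E ≠ ⊤ := by rw [hvE]; exact ENNReal.ofReal_ne_top
    have hpos : ENNReal.ofReal (ε * r₁ ^ finrank ℝ V) ≠ 0 := by
      simpa using mul_pos hε (pow_pos hr₁ _)
    obtain ⟨K, hKE, hK, hKd⟩ := hE.exists_isCompact_sdiff_lt hfin hpos
    have hcomp : IsCompact ((fun p : V × V => p.1 * p.2⁻¹) '' (K ×ˢ Metric.closedBall (1 : V) r₁)) := by
      refine (hK.prod (isCompact_closedBall _ _)).image ?_
      exact continuous_fst.mul continuous_snd.inv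
    refine hcomp.of_isClosed_subset (SUP_closed E) ?_
    intro x hx
    have h1 := hS1 x hx r₁ hr₁ le_rfl
    have h2 : ¬ (E ∩ bl x r₁ ⊆ E \ K) := fun hsub =>
      absurd ((measure_mono hsub).trans_lt hKd) (not_lt.2 h1.le)
    rw [not_subset] at h2
    obtain ⟨y, hy1, hy2⟩ := h2
    have hyK : y ∈ K := by
      by_contra hc
      exact hy2 ⟨hy1.1, hc⟩
    obtain ⟨g, hg, hgy⟩ := hy1.2
    refine ⟨(y, g), ⟨hyK, Metric.ball_subset_closedBall hg⟩, ?_⟩
    simp only at hgy ⊢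
    rw [← hgy]
    group
  · -- closure
    refine Subset.antisymm (closure_minimal hOS (SUP_closed E)) ?_
    intro x hx
    rw [mem_closure_iff]
    intro U hU hxU
    have h1 := hx U (hU.mem_nhds hxU)
    by_contra hcon
    rw [not_nonempty_iff_eq_empty] at hcon
    refine absurd (measure_mono_null (t := E ∩ SUP_S Eᶜ) ?_ hz1) h1.ne'
    rintro y ⟨hyE, hyU⟩
    refine ⟨hyE, ?_⟩
    by_contra hy
    have : y ∈ U ∩ (SUP_S Eᶜ)ᶜ := ⟨hyU, hy⟩
    rw [hcon] at this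
    exact this
  · rw [diff_compl]
    exact hz
  · rw [ae_eq_set]
    refine ⟨measure_mono_null ?_ (measure_union_null hz (SUP_null Eᶜ)), SUP_null E⟩
    rintro x ⟨hx1, hx2⟩
    by_cases hx : x ∈ SUP_S Eᶜ
    · exact Or.inl ⟨hx1, hx⟩
    · exact Or.inr ⟨hx2, hx⟩

end Pool.Agent.MLG
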